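import Pool.Agent.Morse284.Final

/-!
# Translation lengths of Morse elements need not form a discrete set

We construct a finitely generated Morse local-to-global group whose set of translation lengths of
Morse elements is not discrete.

All definitions used in the statement are in `Pool.Agent.Morse284.WordLen` (`wl`, `FGen`),
`Pool.Agent.Morse284.Defs` (`QGeo`, `MorseOn`, `MLTG`, `CayPt`, `CayPt.cdist`),
`Pool.Agent.Morse284.Cayley` (the metric on `CayPt`) and `Pool.Agent.Morse284.MainDefs`
(`Cay`, `Geod`, `MorseElt`, `TS`).

The group is an HNN extension of `(F ⋊ ℤ) × ℤ`, where `F` is free on `a_i, b_i, e_i` (`i ∈ ℤ`)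
and the first `ℤ` shifts the indices. The stable letter `t` commutes with `e_0` and satisfies
`t w_{n,i} t⁻¹ = w_{n,i+1}` for `0 ≤ i ≤ m_n - 2`, where the `w_{n,i}` form a free family with
`w_{n,0} w_{n,1} ⋯ w_{n,m_n-1} = a_n b_{-n}`, an element of length `O(n)`, so that
`(w_{n,0} t)^{m_n} = a_n b_{-n} t^{m_n}` has length at most `m_n + O(n)`, but the power `k` of
`w_{n,0} t` has length at least `k + k / (m_n + 1)`; here `m_n = (n + 2)^2`. The squares of the
elements `w_{n,0} t` are Morse, with translation lengths larger than `2` and tending to `2`, and
`u t` is Morse with translation length `2`, where `u` generates the first `ℤ`.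
-/

namespace Pool.Agent.Results.MP_284ea2_al.NonDiscreteTranslationLengths

open Morse284

/-- There are a finitely generated group `G` and a finite generating set of `G` such that the
Cayley graph has the Morse local-to-global property, and such that some point of the set of
translation lengths of Morse elements is not isolated in this set. -/
theorem result : ∃ (G : Type) (_ : Group G) (E : FGen G), MLTG (Cay E) ∧
    ∃ τ ∈ TS E, ∀ ε : ℝ, 0 < ε → ∃ τ' ∈ TS E, τ' ≠ τ ∧ |τ' - τ| < ε :=
  ⟨blk0.GG, inferInstance, blk0.EE, mltg_blk blk0, 2, blk0.two_mem, not_isolated⟩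

end Pool.Agent.Results.MP_284ea2_al.NonDiscreteTranslationLengths
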